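import Pool.Agent.X310.StA

/-!
# Stark's conjecture for abelian extensions of fields with exactly one fixed embedding

`T : KnownStark` models the quotients `A(χ)` of Stark's regulators by the leading terms of the Artin `L`-functions at
`0`, with their formal properties (additive in the character `χ`, invariant under induction, independence of
`A(χ)^σ / A(χ^σ)` of the choices) and the known cases of Stark's conjecture `A(χ)^σ = A(χ^σ)`: characters with rational
values, and the characters of the abelian extensions of `ℚ` and of the imaginary quadratic fields. The rational conjecture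
for the abelian extension `KM/K` (Q1, for all `S`, `T` and `r`) follows from `T.Abelian K M`: the conjecture for all
characters of its Galois group.

Let `K/K₀` be an extension of number fields, and `M/K₀` an abelian extension, such that every element of the absolute
Galois group of `K₀` which is not trivial on `M` fixes exactly one `K₀`-embedding of `K`. For example: `KM/K₀` is
Galois with a Frobenius group with the complement `Gal(KM/K)` (`IsFrob`); or `K = K₀(a^{1/p^n})`, `M = K₀(ζ_p)`.
Then the conjecture for `KM/K` is equivalent to the conjecture for `M/K₀`. So it is true for the fields `K` which are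
reached by such steps from `ℚ` or from an imaginary quadratic field (`Reach M K`), where `M` is any abelian extension of
the latter.

The last part: the conjecture is true for a character `χ` of an abelian extension of `K` if the induced character of
`ℚ` is a difference of sums of known characters (`Elem`); if this is true for a multiple of it, then up to roots of
unity.
-/

set_option autoImplicit false

namespace Pool.Agent.Results.MP_d9bae3_nt.OneFixedEmbeddingStark

open Pool.Agent.X208.BR.Pk Pool.Agent.X310.Be Pool.Agent.X310.St

theorem result (T : KnownStark) :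
    -- transfer from `M/K₀` to `KM/K`
    (∀ (K₀ K M : Fld) (h : K₀ ≤ K), IsNF K → IsNF M → IsAb K₀ M →
      ((∀ g : G K₀, (g : GalQ) ∉ G M → FixesOne K₀ K g) ∨ IsFrob K₀ K M) →
      (∀ χ : G K₀ → ℂ, IsLin K₀ M χ →
        ind h (res h χ) + (fun _ => 1) = χ + ind h fun _ => 1) ∧
      (T.Abelian K M ↔ T.Abelian K₀ M)) ∧
    -- the fields reached from `ℚ` or from imaginary quadratic fields
    (∀ K M : Fld, IsNF M → Reach M K → IsAb K M ∧ T.Abelian K M) ∧
    -- single characters
    (∀ (K M : Fld) (h : QQ ≤ K) (χ : G K → ℂ) (a b : G QQ → ℂ), IsNF K → IsNF M → IsLin K M χ →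
      Elem a → Elem b →
      (ind h χ + a = b → T.Holds K χ) ∧
      ∀ n : ℕ, n • ind h χ + a = b → ∀ (L : Fld) (σ : ℂ ≃+* ℂ), Over L K → IsCharOf L K χ →
        (σ (T.A L K χ)) ^ n = (T.A L K fun g => σ (χ g) : ℂ) ^ n) := by
  refine ⟨fun K₀ K M h hK hM hab hc => ?_, fun K M hM hr => reach_prop T hM hr,
    fun K M h χ a b hK hM hχ ha hb => ⟨fun h1 => holds_of_elem T hK hM hχ ha hb h1,
      fun n h1 L σ hL hL' => pow_of_elem T hK hM hχ n ha hb h1 L σ hL hL'⟩⟩
  have hfix : ∀ g : G K₀, (g : GalQ) ∉ G M → FixesOne K₀ K g :=
    hc.elim id fun hF => frobenius h hK hab hF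
  exact ⟨fun χ hχ => relation h hK hfix hχ, equivariant_iff (toBorel T) h hK hM hab hfix⟩

end Pool.Agent.Results.MP_d9bae3_nt.OneFixedEmbeddingStark
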