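import Pool.Agent.X242.DR7

/-!
# Stark's rational conjecture of order `r` for abelian extensions and universal rational weights

Let `H/F` be a finite abelian extension with group `G`, `S`, `T`, `r`, `v_1, …, v_r` as in the problem. Expanding the Euler
factors at `T`, `Θ_{S,T}(s) = ∑_𝔞 c_T(𝔞) N(𝔞)^{-s} σ_𝔞^{-1}` for `Re s > 1`, over the nonzero ideals `𝔞` prime to `S`, with
`c_T(𝔞) = ∏ (1 - q_v)` over the `v` in `T` which divide `𝔞`. Let `θ = lim Θ_{S,T}(s) / s^r ∈ ℝ[G]` (`s → 0`), so that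
`Θ_{S,T}^{(r)}(H/F, 0) = r! θ`; the factor `r!` plays no role in the conjecture `θ 𝒳_r ⊂ λ(𝒰_r)`.

For `γ > π/2` with `C_r(γ) = (-1)^r (d/dt)^r (e^{iγt} / Γ(1 + t)) (0) ≠ 0` fix rational numbers `ρ_N(n)`, for every `N`
almost all of them zero, with `|ρ_N(n) - Re (N^r e^{iγ log n / N} / (C_r(γ) Γ(1 + log n / N)))| ≤ 1 / (N n²)`. They depend
only on `r`. Put `x_N = ∑_𝔞 ρ_N(N 𝔞) c_T(𝔞) σ_𝔞^{-1} ∈ ℚ[G]`, a finite sum.

Let `V` be a real representation of `G` with a norm (in the problem `V = ℝ ⋀^r X_{S_H}`), `x_1, …, x_t ∈ V` (generators of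
the image of `⋀^r X_{S_H}` over `ℤ[G]`), `𝒳` the group generated by the `g x_i`, and `Λ ⊂ V` a closed subgroup which is
stable under `G` (the lattice `λ(⋀^r U_{S,T})`). Then `ℚ𝒳 = 𝒳_r` and `ℚΛ = λ(𝒰_r)`.

1. `θ` is real and `x_N v = θ v + O(1/N)` for all `v` in `V`.
2. Equivalent are: (a) `θ · ℚ𝒳 ⊂ ℚΛ` (the conjecture for `H/F`, `S`, `T`); (b) for some `M ≥ 1` the vectors
   `M x_N x_1, …, M x_N x_t` come simultaneously arbitrarily close to `Λ` for arbitrarily large `N`; (c) for some `M ≥ 1`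
   and `y_1, …, y_t ∈ Λ`: `M x_N x_i = y_i + O(1/N)`.
-/

set_option autoImplicit false

namespace Pool.Agent.Results.MP_d9bae3_nt.RationalElementsApproach

open Filter Topology NumberField IsDedekindDomain Pool.Agent.X242.DR Asymptotics

/-- The places of a number field: the archimedean places and the maximal ideals. -/
abbrev Place (F : Type) [Field F] [NumberField F] : Type :=
  InfinitePlace F ⊕ HeightOneSpectrum (𝓞 F)

section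

variable {F H : Type} [Field F] [NumberField F] [Field H] [NumberField H] [Algebra F H]

/-- The place `Q` of `H` lies over the place `q` of `F`. -/
def LiesOver : Place H → Place F → Prop
  | .inl w, .inl v => w.comap (algebraMap F H) = v
  | .inr 𝔓, .inr 𝔭 => 𝔓.asIdeal.comap (algebraMap (𝓞 F) (𝓞 H)) = 𝔭.asIdeal
  | _, _ => False

/-- The residue characteristic. -/
noncomputable def resChar (𝔭 : HeightOneSpectrum (𝓞 F)) : ℕ := (Ideal.absNorm 𝔭.asIdeal).minFac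

/-- `S`, `T`, `r` and the places `v i` are as in the conjecture. -/
structure IsRubinData (H : Type) [Field H] [NumberField H] [Algebra F H] (S : Finset (Place F))
    (T : Finset (HeightOneSpectrum (𝓞 F))) (r : ℕ) (v : Fin r → Place F) : Prop where
  arch : ∀ u : InfinitePlace F, Sum.inl u ∈ S
  ram : ∀ 𝔭 : HeightOneSpectrum (𝓞 F), Sum.inr 𝔭 ∉ S → ∀ 𝔓 : HeightOneSpectrum (𝓞 H),
    LiesOver (F := F) (H := H) (.inr 𝔓) (.inr 𝔭) →
      ¬ Ideal.map (algebraMap (𝓞 F) (𝓞 H)) 𝔭.asIdeal ≤ 𝔓.asIdeal ^ 2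
  disj : ∀ 𝔭 ∈ T, Sum.inr 𝔭 ∉ S
  tors : (∃ 𝔭 ∈ T, ∃ 𝔮 ∈ T, resChar 𝔭 ≠ resChar 𝔮) ∨ ∃ 𝔭 ∈ T, Module.finrank ℚ F + 1 < resChar 𝔭
  inj : Function.Injective v
  mem : ∀ i, v i ∈ S
  split : ∀ q ∈ S, q ∈ Set.range v ↔
    Nat.card {Q : Place H // LiesOver Q q} = Module.finrank F H
  card : r + 1 ≤ S.card

/-- `𝔞` is a nonzero ideal which is prime to the finite places in `S`. -/
def PrimeTo (S : Finset (Place F)) (𝔞 : Ideal (𝓞 F)) : Prop :=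
  𝔞 ≠ ⊥ ∧ ∀ 𝔭 : HeightOneSpectrum (𝓞 F), Sum.inr 𝔭 ∈ S → ¬ 𝔞 ≤ 𝔭.asIdeal

/-- `A` is the Artin map `𝔞 ↦ σ_𝔞`: multiplicative on the ideals prime to `S`, and `A 𝔭` is, for every prime `𝔭`
outside `S`, the Frobenius automorphism at all primes `𝔓` of `H` over `𝔭`. -/
structure IsArtinMap (S : Finset (Place F)) (A : Ideal (𝓞 F) → (H ≃ₐ[F] H)) : Prop where
  mul : ∀ 𝔞 𝔟 : Ideal (𝓞 F), PrimeTo S 𝔞 → PrimeTo S 𝔟 → A (𝔞 * 𝔟) = A 𝔞 * A 𝔟
  frob : ∀ 𝔭 : HeightOneSpectrum (𝓞 F), Sum.inr 𝔭 ∉ S → ∀ 𝔓 : HeightOneSpectrum (𝓞 H),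
    LiesOver (F := F) (H := H) (.inr 𝔓) (.inr 𝔭) → ∀ x y : 𝓞 H, (y : H) = A 𝔭.asIdeal (x : H) →
      y - x ^ (Ideal.absNorm 𝔭.asIdeal) ∈ 𝔓.asIdeal

open Classical in
/-- `c_T(𝔞)`: the product of `1 - q_v` over the `v` in `T` which divide `𝔞` -/
noncomputable def cT (T : Finset (HeightOneSpectrum (𝓞 F))) (𝔞 : Ideal (𝓞 F)) : ℤ :=
  ∏ 𝔭 ∈ T, if 𝔞 ≤ 𝔭.asIdeal then 1 - (Ideal.absNorm 𝔭.asIdeal : ℤ) else 1

/-- The functions `Θ g` are the coefficients of `Θ_{S,T}(s) = ∑ c_T(𝔞) N(𝔞)^{-s} σ_𝔞^{-1}`, and `θ g` those of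
`Θ^{(r)}_{S,T}(H/F, 0)`. -/
structure IsTheta (S : Finset (Place F)) (T : Finset (HeightOneSpectrum (𝓞 F))) (r : ℕ)
    (A : Ideal (𝓞 F) → (H ≃ₐ[F] H)) (Θ : (H ≃ₐ[F] H) → ℂ → ℂ) (θ : (H ≃ₐ[F] H) → ℂ) : Prop where
  series : ∀ (g : H ≃ₐ[F] H) (s : ℂ), 1 < s.re →
    HasSum (fun 𝔞 : {𝔞 : Ideal (𝓞 F) // PrimeTo S 𝔞 ∧ A 𝔞 = g⁻¹} =>
      (cT T 𝔞.1 : ℂ) * ((Ideal.absNorm 𝔞.1 : ℕ) : ℂ) ^ (-s)) (Θ g s)
  entire : ∀ g : H ≃ₐ[F] H, Differentiable ℂ (Θ g)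
  lim : ∀ g : H ≃ₐ[F] H, Tendsto (fun s : ℂ => Θ g s / s ^ r) (𝓝[≠] 0) (𝓝 (θ g))

open Classical in
/-- The coefficient of `g` in `x_N = ∑_𝔞 ρ_N(N 𝔞) c_T(𝔞) σ_𝔞^{-1}`, for `ρ = ρ_N`. -/
noncomputable def approx (S : Finset (Place F)) (T : Finset (HeightOneSpectrum (𝓞 F)))
    (A : Ideal (𝓞 F) → (H ≃ₐ[F] H)) (ρ : ℕ →₀ ℚ) (g : H ≃ₐ[F] H) : ℚ :=
  comb ρ (byNorm fun 𝔞 : Ideal (𝓞 F) => if PrimeTo S 𝔞 ∧ A 𝔞 = g⁻¹ then (cT T 𝔞 : ℚ) else 0)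

open Classical in
theorem cT_le (T : Finset (HeightOneSpectrum (𝓞 F))) (𝔞 : Ideal (𝓞 F)) :
    ‖((cT T 𝔞 : ℤ) : ℂ)‖ ≤ ∏ 𝔭 ∈ T, ((Ideal.absNorm 𝔭.asIdeal : ℝ) + 1) := by
  unfold cT
  push_cast
  rw [norm_prod]
  refine Finset.prod_le_prod (fun _ _ => norm_nonneg _) fun 𝔭 _ => ?_
  have h0 : (0 : ℝ) ≤ (Ideal.absNorm 𝔭.asIdeal : ℝ) := Nat.cast_nonneg _
  split_ifs
  · refine (norm_sub_le _ _).trans ?_
    rw [norm_one, Complex.norm_natCast]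
    linarith
  · rw [norm_one]
    linarith

theorem main {r : ℕ} {γ : ℝ} (hγ : Real.pi / 2 < γ) (hC : Ck r γ ≠ 0) {ρ : ℕ → ℕ →₀ ℚ}
    (hρ : IsRational r γ ρ) {S : Finset (Place F)} {T : Finset (HeightOneSpectrum (𝓞 F))}
    {A : Ideal (𝓞 F) → (H ≃ₐ[F] H)} {Θ : (H ≃ₐ[F] H) → ℂ → ℂ} {θ : (H ≃ₐ[F] H) → ℂ}
    (h : IsTheta S T r A Θ θ) (g : H ≃ₐ[F] H) :
    (θ g).im = 0 ∧ (fun N : ℕ => (approx S T A (ρ N) g : ℝ) - (θ g).re) =O[atTop]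
      (fun N : ℕ => 1 / (N : ℝ)) := by
  classical
  set c : Ideal (𝓞 F) → ℂ := fun 𝔞 => if PrimeTo S 𝔞 ∧ A 𝔞 = g⁻¹ then ((cT T 𝔞 : ℤ) : ℂ) else 0
    with hc
  have hc0 : c ⊥ = 0 := by
    rw [hc]
    simp only
    rw [if_neg]
    intro h2
    exact h2.1.1 rfl
  have hcb : ∀ 𝔞, ‖c 𝔞‖ ≤ ∏ 𝔭 ∈ T, ((Ideal.absNorm 𝔭.asIdeal : ℝ) + 1) := by
    intro 𝔞
    rw [hc]
    simp only
    split_ifs
    · exact cT_le T 𝔞
    · rw [norm_zero]
      exact Finset.prod_nonneg fun 𝔭 _ => by positivity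
  have hser : ∀ s : ℂ, 1 < s.re → HasSum (fun 𝔞 : Ideal (𝓞 F) =>
      c 𝔞 * ((Ideal.absNorm 𝔞 : ℕ) : ℂ) ^ (-s)) (Θ g s) := by
    intro s hs
    have h1 := (hasSum_subtype_iff_indicator (s := {𝔞 : Ideal (𝓞 F) | PrimeTo S 𝔞 ∧ A 𝔞 = g⁻¹})
      (f := fun 𝔞 : Ideal (𝓞 F) => (cT T 𝔞 : ℂ) * ((Ideal.absNorm 𝔞 : ℕ) : ℂ) ^ (-s))).1
      (h.series g s hs)
    refine h1.congr_fun fun 𝔞 => ?_
    rw [hc]
    simp only
    by_cases h2 : PrimeTo S 𝔞 ∧ A 𝔞 = g⁻¹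
    · rw [Set.indicator_of_mem (show 𝔞 ∈ {𝔞 | PrimeTo S 𝔞 ∧ A 𝔞 = g⁻¹} from h2), if_pos h2]
    · rw [Set.indicator_of_notMem (show 𝔞 ∉ {𝔞 | PrimeTo S 𝔞 ∧ A 𝔞 = g⁻¹} from h2), if_neg h2,
        zero_mul]
  have hS := isSeries_ideals hcb hc0 (fun x _ _ => ((h.entire g).analyticAt _).meromorphicAt) hser
  have h1 := hS.universal (byNorm_zero hc0) r (θ g) hγ hC
    (bigO_of_lim ((h.entire g).analyticAt 0) (h.lim g)) hρ
  have e1 : ∀ N, comb (ρ N) (byNorm c) = (((approx S T A (ρ N) g : ℚ) : ℝ) : ℂ) := by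
    intro N
    have e2 : byNorm c = fun n => (Rat.castHom ℂ) (byNorm (fun 𝔞 : Ideal (𝓞 F) =>
        if PrimeTo S 𝔞 ∧ A 𝔞 = g⁻¹ then (cT T 𝔞 : ℚ) else 0) n) := by
      funext n
      have e3 := byNorm_map (K := F) (Rat.castHom ℂ).toAddMonoidHom (fun 𝔞 : Ideal (𝓞 F) =>
        if PrimeTo S 𝔞 ∧ A 𝔞 = g⁻¹ then (cT T 𝔞 : ℚ) else 0) n
      refine Eq.trans ?_ e3
      congr 1
      funext 𝔞
      rw [hc]
      simp only
      split_ifs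
      · simp
      · simp
    rw [e2, comb_hom (Rat.castHom ℂ) (ρ N)]
    simp [approx]
  simp only [e1] at h1
  have him : (θ g).im = 0 := by
    have h2 : Tendsto (fun N : ℕ => (((approx S T A (ρ N) g : ℚ) : ℝ) : ℂ) - θ g) atTop (𝓝 0) :=
      h1.trans_tendsto tendsto_one_div_atTop_nhds_zero_nat
    have h3 := (Complex.continuous_im.tendsto 0).comp h2
    have h4 : (Complex.im ∘ fun N : ℕ => (((approx S T A (ρ N) g : ℚ) : ℝ) : ℂ) - θ g) =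
        fun _ => -(θ g).im := by
      funext N
      simp
    rw [h4] at h3
    have h5 := tendsto_nhds_unique h3 tendsto_const_nhds
    simpa using h5.symm
  refine ⟨him, ?_⟩
  obtain ⟨B, hB⟩ := h1.bound
  refine IsBigO.of_bound B ?_
  filter_upwards [hB] with N hN
  refine le_trans ?_ hN
  rw [← Complex.norm_real]
  refine le_of_eq ?_
  congr 1
  apply Complex.ext <;> simp [him]

end

section

variable {G V : Type} [Group G] [Fintype G] [NormedAddCommGroup V] [NormedSpace ℝ V]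

/-- `y v = ∑_g y(g) g v` for `y ∈ ℝ[G]` and `v ∈ V` -/
noncomputable def opp (π : Representation ℝ G V) (y : G → ℝ) (v : V) : V := ∑ g, y g • π g v

/-- `v ∈ ℚΛ`: a positive integral multiple of `v` is in `Λ`. -/
def InQ (Λ : AddSubgroup V) (v : V) : Prop := ∃ M : ℕ, 1 ≤ M ∧ (M : ℝ) • v ∈ Λ

/-- the group `𝒳` generated by the `g x_i` -/
def orbitGroup {t : ℕ} (π : Representation ℝ G V) (x : Fin t → V) : AddSubgroup V :=
  AddSubgroup.closure {y | ∃ g i, y = π g (x i)}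

/-- The conjecture: `θ · ℚ𝒳 ⊂ ℚΛ`. -/
def StarkInclusion {t : ℕ} (π : Representation ℝ G V) (θ : G → ℝ) (x : Fin t → V) (Λ : AddSubgroup V) : Prop :=
  ∀ v, InQ (orbitGroup π x) v → InQ Λ (opp π θ v)

theorem InQ.add {Λ : AddSubgroup V} {v w : V} (hv : InQ Λ v) (hw : InQ Λ w) : InQ Λ (v + w) := by
  obtain ⟨M, hM, h1⟩ := hv
  obtain ⟨M', hM', h2⟩ := hw
  refine ⟨M * M', Nat.mul_pos hM hM', ?_⟩
  have e : ((M * M' : ℕ) : ℝ) • (v + w) = M' • ((M : ℝ) • v) + M • ((M' : ℝ) • w) := by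
    rw [smul_add, ← Nat.cast_smul_eq_nsmul ℝ M', ← Nat.cast_smul_eq_nsmul ℝ M, smul_smul, smul_smul]
    push_cast
    rw [mul_comm (M' : ℝ) (M : ℝ)]
  rw [e]
  exact Λ.add_mem (Λ.nsmul_mem h1 _) (Λ.nsmul_mem h2 _)

theorem InQ.neg {Λ : AddSubgroup V} {v : V} (hv : InQ Λ v) : InQ Λ (-v) := by
  obtain ⟨M, hM, h1⟩ := hv
  refine ⟨M, hM, ?_⟩
  rw [smul_neg]
  exact Λ.neg_mem h1

theorem inQ_zero {Λ : AddSubgroup V} : InQ Λ 0 := ⟨1, le_rfl, by rw [smul_zero]; exact Λ.zero_mem⟩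

theorem opp_add (π : Representation ℝ G V) (y : G → ℝ) (v w : V) :
    opp π y (v + w) = opp π y v + opp π y w := by
  unfold opp
  rw [← Finset.sum_add_distrib]
  exact Finset.sum_congr rfl fun g _ => by rw [map_add, smul_add]

theorem opp_neg (π : Representation ℝ G V) (y : G → ℝ) (v : V) : opp π y (-v) = -opp π y v := by
  unfold opp
  rw [← Finset.sum_neg_distrib]
  exact Finset.sum_congr rfl fun g _ => by rw [map_neg, smul_neg]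

theorem opp_zero (π : Representation ℝ G V) (y : G → ℝ) : opp π y (0 : V) = 0 := by
  unfold opp
  simp

theorem opp_smul (π : Representation ℝ G V) (y : G → ℝ) (a : ℝ) (v : V) :
    opp π y (a • v) = a • opp π y v := by
  unfold opp
  rw [Finset.smul_sum]
  exact Finset.sum_congr rfl fun g _ => by rw [map_smul, smul_comm]

theorem opp_comm (hab : ∀ a b : G, a * b = b * a) (π : Representation ℝ G V) (y : G → ℝ) (g : G) (v : V) :
    opp π y (π g v) = π g (opp π y v) := by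
  unfold opp
  rw [map_sum]
  refine Finset.sum_congr rfl fun h _ => ?_
  rw [map_smul]
  congr 1
  have h1 : π h (π g v) = (π (h * g)) v := by rw [map_mul]; rfl
  have h2 : π g (π h v) = (π (g * h)) v := by rw [map_mul]; rfl
  rw [h1, h2, hab]

/-- reduction to the generators -/
theorem stark_iff (hab : ∀ a b : G, a * b = b * a) {t : ℕ} (π : Representation ℝ G V) (θ : G → ℝ)
    (x : Fin t → V) {Λ : AddSubgroup V} (hΛ : ∀ g, ∀ y ∈ Λ, π g y ∈ Λ) :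
    StarkInclusion π θ x Λ ↔ ∀ i, InQ Λ (opp π θ (x i)) := by
  constructor
  · intro h i
    refine h _ ⟨1, le_rfl, ?_⟩
    rw [Nat.cast_one, one_smul]
    exact AddSubgroup.subset_closure ⟨1, i, by rw [map_one]; rfl⟩
  · intro h v hv
    obtain ⟨M, hM, hM2⟩ := hv
    have key : ∀ w ∈ orbitGroup π x, InQ Λ (opp π θ w) := by
      intro w hw
      unfold orbitGroup at hw
      induction hw using AddSubgroup.closure_induction with
      | mem w hw =>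
        obtain ⟨g, i, rfl⟩ := hw
        obtain ⟨M', hM', h2⟩ := h i
        refine ⟨M', hM', ?_⟩
        rw [opp_comm hab, ← map_smul]
        exact hΛ g _ h2
      | zero =>
        rw [opp_zero]
        exact inQ_zero
      | add a b _ _ ha hb =>
        rw [opp_add]
        exact ha.add hb
      | neg a _ ha =>
        rw [opp_neg]
        exact ha.neg
    obtain ⟨M', hM', h2⟩ := key _ hM2
    refine ⟨M' * M, Nat.mul_pos hM' hM, ?_⟩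
    rw [opp_smul, smul_smul] at h2
    push_cast
    exact h2

/-- rate -/
theorem opp_rate (π : Representation ℝ G V) {y : ℕ → G → ℝ} {θ : G → ℝ}
    (h : ∀ g, (fun N : ℕ => y N g - θ g) =O[atTop] fun N : ℕ => 1 / (N : ℝ)) (v : V) (a : ℝ) :
    (fun N : ℕ => a • opp π (y N) v - a • opp π θ v) =O[atTop] fun N : ℕ => 1 / (N : ℝ) := by
  have h1 : (fun N : ℕ => ∑ g, (y N g - θ g) • (a • π g v)) =O[atTop] fun N : ℕ => 1 / (N : ℝ) := by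
    refine IsBigO.fun_sum fun g _ => ?_
    have h2 := (h g).smul (isBigO_refl (fun _ : ℕ => a • π g v) atTop)
    refine h2.trans ?_
    refine IsBigO.of_bound ‖a • π g v‖ (Eventually.of_forall fun N => ?_)
    rw [norm_smul, mul_comm]
  refine h1.congr_left fun N => ?_
  unfold opp
  rw [← smul_sub, ← Finset.sum_sub_distrib, Finset.smul_sum]
  refine Finset.sum_congr rfl fun g _ => ?_
  rw [← sub_smul, smul_comm]

/-- the criterion -/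
theorem criterion (hab : ∀ a b : G, a * b = b * a) {t : ℕ} (π : Representation ℝ G V) {y : ℕ → G → ℝ}
    {θ : G → ℝ} (h : ∀ g, (fun N : ℕ => y N g - θ g) =O[atTop] fun N : ℕ => 1 / (N : ℝ))
    (x : Fin t → V) {Λ : AddSubgroup V} (hc : IsClosed (Λ : Set V)) (hΛ : ∀ g, ∀ y ∈ Λ, π g y ∈ Λ) :
    (StarkInclusion π θ x Λ ↔ ∃ M : ℕ, 1 ≤ M ∧ ∀ ε : ℝ, 0 < ε → ∀ N₀ : ℕ, ∃ N ≥ N₀, ∀ i, ∃ z ∈ Λ,
      ‖(M : ℝ) • opp π (y N) (x i) - z‖ < ε) ∧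
    (StarkInclusion π θ x Λ ↔ ∃ M : ℕ, 1 ≤ M ∧ ∃ z : Fin t → V, (∀ i, z i ∈ Λ) ∧ ∀ i,
      (fun N : ℕ => (M : ℝ) • opp π (y N) (x i) - z i) =O[atTop] fun N : ℕ => 1 / (N : ℝ)) := by
  have hlim : ∀ (M : ℕ) (i : Fin t), Tendsto (fun N : ℕ => ‖(M : ℝ) • opp π (y N) (x i) -
      (M : ℝ) • opp π θ (x i)‖) atTop (𝓝 0) := by
    intro M i
    have h1 := (opp_rate π h (x i) M).trans_tendsto tendsto_one_div_atTop_nhds_zero_nat
    have h2 := h1.norm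
    rwa [norm_zero] at h2
  have hac : StarkInclusion π θ x Λ → ∃ M : ℕ, 1 ≤ M ∧ ∃ z : Fin t → V, (∀ i, z i ∈ Λ) ∧ ∀ i,
      (fun N : ℕ => (M : ℝ) • opp π (y N) (x i) - z i) =O[atTop] fun N : ℕ => 1 / (N : ℝ) := by
    intro h1
    rw [stark_iff hab π θ x hΛ] at h1
    choose m hm hm2 using h1
    refine ⟨∏ i, m i, Nat.one_le_iff_ne_zero.2 (Finset.prod_ne_zero_iff.2 fun i _ => by
      have := hm i
      omega), fun i => ((∏ i, m i : ℕ) : ℝ) • opp π θ (x i), fun i => ?_, fun i => opp_rate π h (x i) _⟩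
    obtain ⟨k, hk⟩ : m i ∣ ∏ i, m i := Finset.dvd_prod_of_mem m (Finset.mem_univ i)
    have e : ((∏ i, m i : ℕ) : ℝ) • opp π θ (x i) = k • ((m i : ℝ) • opp π θ (x i)) := by
      rw [hk, ← Nat.cast_smul_eq_nsmul ℝ k, smul_smul]
      push_cast
      rw [mul_comm]
    show ((∏ i, m i : ℕ) : ℝ) • opp π θ (x i) ∈ Λ
    rw [e]
    exact Λ.nsmul_mem (hm2 i) _
  have hcb : (∃ M : ℕ, 1 ≤ M ∧ ∃ z : Fin t → V, (∀ i, z i ∈ Λ) ∧ ∀ i,
      (fun N : ℕ => (M : ℝ) • opp π (y N) (x i) - z i) =O[atTop] fun N : ℕ => 1 / (N : ℝ)) →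
      ∃ M : ℕ, 1 ≤ M ∧ ∀ ε : ℝ, 0 < ε → ∀ N₀ : ℕ, ∃ N ≥ N₀, ∀ i, ∃ z ∈ Λ,
      ‖(M : ℝ) • opp π (y N) (x i) - z‖ < ε := by
    rintro ⟨M, hM, z, hz, h1⟩
    refine ⟨M, hM, fun ε hε N₀ => ?_⟩
    have h2 : ∀ᶠ N : ℕ in atTop, ∀ i, ‖(M : ℝ) • opp π (y N) (x i) - z i‖ < ε := by
      rw [eventually_all]
      intro i
      have h3 := ((h1 i).trans_tendsto tendsto_one_div_atTop_nhds_zero_nat).norm
      rw [norm_zero] at h3
      exact h3.eventually_lt_const hε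
    obtain ⟨N, hN1, hN2⟩ := (h2.and (eventually_ge_atTop N₀)).exists
    exact ⟨N, hN2, fun i => ⟨z i, hz i, hN1 i⟩⟩
  have hba : (∃ M : ℕ, 1 ≤ M ∧ ∀ ε : ℝ, 0 < ε → ∀ N₀ : ℕ, ∃ N ≥ N₀, ∀ i, ∃ z ∈ Λ,
      ‖(M : ℝ) • opp π (y N) (x i) - z‖ < ε) → StarkInclusion π θ x Λ := by
    rintro ⟨M, hM, h1⟩
    rw [stark_iff hab π θ x hΛ]
    intro i
    refine ⟨M, hM, ?_⟩
    have hmem : (M : ℝ) • opp π θ (x i) ∈ closure (Λ : Set V) := by
      rw [Metric.mem_closure_iff]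
      intro ε hε
      obtain ⟨N₀, hN₀⟩ := eventually_atTop.1 ((hlim M i).eventually_lt_const (half_pos hε))
      obtain ⟨N, hN, h2⟩ := h1 (ε / 2) (half_pos hε) N₀
      obtain ⟨z, hz, hz2⟩ := h2 i
      refine ⟨z, hz, ?_⟩
      have h3 := hN₀ N hN
      rw [dist_eq_norm]
      have h5 : (M : ℝ) • opp π θ (x i) - z = ((M : ℝ) • opp π (y N) (x i) - z) -
          ((M : ℝ) • opp π (y N) (x i) - (M : ℝ) • opp π θ (x i)) := by abel
      rw [h5]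
      refine (norm_sub_le _ _).trans_lt ?_
      linarith
    rw [hc.closure_eq] at hmem
    exact hmem
  exact ⟨⟨fun h1 => hcb (hac h1), hba⟩, ⟨hac, fun h1 => hba (hcb h1)⟩⟩

end

/-- **Stark's rational conjecture of order `r` and universal rational weights.** -/
theorem result :
    -- 0. the weights exist
    ((∀ r : ℕ, {γ : ℝ | Ck r γ = 0}.Finite) ∧ ∀ (r : ℕ) (γ : ℝ), ∃ ρ, IsRational r γ ρ) ∧
    ∀ (r : ℕ) (γ : ℝ), Real.pi / 2 < γ → Ck r γ ≠ 0 → ∀ ρ : ℕ → ℕ →₀ ℚ, IsRational r γ ρ →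
    ∀ (F H : Type) [Field F] [NumberField F] [Field H] [NumberField H] [Algebra F H]
      [IsGalois F H] [Fintype (H ≃ₐ[F] H)], (∀ σ τ : H ≃ₐ[F] H, σ * τ = τ * σ) →
    ∀ (S : Finset (Place F)) (T : Finset (HeightOneSpectrum (𝓞 F))) (v : Fin r → Place F),
      IsRubinData H S T r v → ∀ A : Ideal (𝓞 F) → (H ≃ₐ[F] H), IsArtinMap S A →
    ∀ (Θ : (H ≃ₐ[F] H) → ℂ → ℂ) (θ : (H ≃ₐ[F] H) → ℂ), IsTheta S T r A Θ θ →
    (∀ g : H ≃ₐ[F] H, (θ g).im = 0) ∧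
    ∀ (V : Type) [NormedAddCommGroup V] [NormedSpace ℝ V] (π : Representation ℝ (H ≃ₐ[F] H) V),
    -- 1. the approximations
    (∀ w : V, (fun N : ℕ => opp π (fun g => (approx S T A (ρ N) g : ℝ)) w - opp π (fun g => (θ g).re) w)
      =O[atTop] fun N : ℕ => 1 / (N : ℝ)) ∧
    -- 2. the conjecture
    ∀ (t : ℕ) (x : Fin t → V) (Λ : AddSubgroup V), IsClosed (Λ : Set V) →
      (∀ g, ∀ y ∈ Λ, π g y ∈ Λ) →
      (StarkInclusion π (fun g => (θ g).re) x Λ ↔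
        ∃ M : ℕ, 1 ≤ M ∧ ∀ ε : ℝ, 0 < ε → ∀ N₀ : ℕ, ∃ N ≥ N₀, ∀ i, ∃ z ∈ Λ,
          ‖(M : ℝ) • opp π (fun g => (approx S T A (ρ N) g : ℝ)) (x i) - z‖ < ε) ∧
      (StarkInclusion π (fun g => (θ g).re) x Λ ↔
        ∃ M : ℕ, 1 ≤ M ∧ ∃ z : Fin t → V, (∀ i, z i ∈ Λ) ∧ ∀ i,
          (fun N : ℕ => (M : ℝ) • opp π (fun g => (approx S T A (ρ N) g : ℝ)) (x i) - z i) =O[atTop]
            fun N : ℕ => 1 / (N : ℝ)) := by
  refine ⟨⟨rot_finite, exists_rational⟩, ?_⟩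
  intro r γ hγ hC ρ hρ F H _ _ _ _ _ _ _ hab S T v _hd A _hA Θ θ h
  have hmain := fun g => main hγ hC hρ h g
  refine ⟨fun g => (hmain g).1, fun V _ _ π => ⟨fun w => ?_, fun t x Λ hc hΛ => ?_⟩⟩
  · have h1 := opp_rate π (y := fun N g => (approx S T A (ρ N) g : ℝ)) (θ := fun g => (θ g).re)
      (fun g => (hmain g).2) w 1
    simpa only [one_smul] using h1
  · exact criterion hab π (y := fun N g => (approx S T A (ρ N) g : ℝ)) (θ := fun g => (θ g).re)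
      (fun g => (hmain g).2) x hc hΛ

end Pool.Agent.Results.MP_d9bae3_nt.RationalElementsApproach
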