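import Pool.Agent.X287.STU

/-!
# The rational Stark conjecture of order `r` and convergent sums over primes

`K` is any number field, `𝔪 ≠ (0), (1)` an ideal, `R` a set of real places of `K`, `r = #R + ` the number of complex places, `G` a
finite abelian group and `c` a map from the ideals of `K` to `G`, multiplicative on the ideals prime to `𝔪`
and trivial on the `(x)` with `x ≡ 1` modulo `𝔪`, `x` positive at the real places outside `R`. (For an
abelian extension `H/K` in which the `r` archimedean places of `R` and the complex ones split completely,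
and `S` = the archimedean places and the primes dividing `𝔪`, the Artin symbol is such a map for suitable
`𝔪` by Artin's reciprocity law, `G = Gal(H/K)`.) Let `T₀` be a finite set of primes prime to `𝔪`, and

`L(χ, s) = ∏_{v ∤ 𝔪} (1 - χ(c(v)) Nv^{-s})⁻¹ ∏_{q ∈ T₀} (1 - χ(c(q)) Nq^{1-s})`    (this is `L_{S,T}(χ, s)`),

`S_χ(T) = ∑_{v ∤ 𝔪} ∑_{k ≥ 1} χ(c(v))^k exp(iγ k log Nv / T) / (k Γ(1 + k log Nv / T))`, `γ > π/2` fixed.

UNCONDITIONALLY:

1. The product over the `v ∤ 𝔪` continues uniquely to a function analytic on `ℂ - {1}`, meromorphic at `1`, the sums converge absolutely,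
   and `θ(χ) = lim_{s → 0} s^{-r} L(χ, s)` exists (it is the `r`-th derivative divided by `r!`).
2. `θ_T(χ) = ∏_{q ∈ T₀} (1 - χ(c(q)) Nq) (T e^{-Λ(γ)})^r exp(S_χ(T)) = θ(χ) + O(1/T)`.
3. Let `H` be a number field with an action of `G`, `w_1, …, w_r` archimedean places of `H`, `U` the group of
   the units `u` of `H` with `|u|_v = 1` at all the archimedean places `v` which are not conjugate to
   some `w_i`, and `Reg_u(χ) = det (∑_g χ(g) log |g(u_j)|_{w_i})` (normalised absolute values) for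
   `u ∈ U^r`. Let `u⁰ ∈ U^r` be arbitrary and `Ξ` the set of the characters `χ` with `Reg_{u⁰}(χ) ≠ 0`. Then
   the following are equivalent:
   (a) there are finitely many `q_k ∈ ℚ[G]` and `u_k ∈ U^r` with `θ(χ) = ∑_k χ(q_k) Reg_{u_k}(χ)` for `χ ∈ Ξ`;
   (b) for some `N ≥ 1` the coefficients of `N ∑_{χ ∈ Ξ} (θ_T(χ) / Reg_{u⁰}(χ)) e_χ ∈ ℂ[G]` come simultaneously
       arbitrarily close to integers for arbitrarily large `T`;
   (c) for some `N ≥ 1` these coefficients are `n(g) + O(1/T)` with integers `n(g)`.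
   If `θ` vanishes outside `Ξ`, then (a) is equivalent to the same equation for all the characters `χ`,
   which is Rubin's form of Q1: `θ = φ(λ(u))` for some `u` in the rational `r`-th exterior power of the units.

So the rational conjecture of order `r` is decided by the behaviour of a convergent sum over primes. The units `u_k` in (a) are
arbitrary: the implication from (a) to (b), (c) uses that the quotients `Reg_u(χ) / Reg_{u⁰}(χ)` are equivariant under
`Aut(ℂ)`, which is proved here from Dirichlet's unit theorem.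
-/

set_option autoImplicit false
set_option linter.unusedSectionVars false

open Filter Topology Asymptotics
open IsDedekindDomain NumberField

namespace Pool.Agent.Results.MP_d9bae3_nt.RegulatorsOfGivenUnits

section defs
variable {K : Type} [Field K] [NumberField K] {G : Type} [CommGroup G] [Fintype G]

/-- `c` is multiplicative on the ideals prime to `𝔪`, and trivial on the ideals `(x)` with `x ≡ 1` modulo `𝔪` and
`x` positive at the real places outside `R`. -/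
structure IsClassMap (𝔪 : Ideal (𝓞 K)) (R : Finset (K →+* ℝ)) (c : Ideal (𝓞 K) → G) : Prop where
  mul : ∀ I J : Ideal (𝓞 K), IsCoprime I 𝔪 → IsCoprime J 𝔪 → c (I * J) = c I * c J
  ray : ∀ x : 𝓞 K, x ≠ 0 → x - 1 ∈ 𝔪 → (∀ τ : K →+* ℝ, τ ∉ R → 0 < τ (x : K)) → c (Ideal.span {x}) = 1

/-- The primes which do not divide `𝔪`. -/
abbrev Places (𝔪 : Ideal (𝓞 K)) : Type := {v : HeightOneSpectrum (𝓞 K) // IsCoprime v.asIdeal 𝔪}

/-- The complex characters of the finite abelian group `G`. -/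
abbrev Character (G : Type) [CommGroup G] : Type := AddChar (Additive G) ℂ

/-- The value `χ(g)`. -/
def value (χ : Character G) (g : G) : ℂ := χ (Additive.ofMul g)

/-- `Λ` is the product over the `v ∤ 𝔪`, continued to `ℂ - {1}` and meromorphic at `1`. -/
structure IsL (𝔪 : Ideal (𝓞 K)) (c : Ideal (𝓞 K) → G) (χ : Character G) (Λ : ℂ → ℂ) : Prop where
  prod : ∀ s : ℂ, 1 < s.re → HasProd (fun v : Places 𝔪 =>
    (1 - value χ (c v.1.asIdeal) * ((Ideal.absNorm v.1.asIdeal : ℕ) : ℂ) ^ (-s))⁻¹) (Λ s)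
  analytic : ∀ s : ℂ, s ≠ 1 → AnalyticAt ℂ Λ s
  mero : MeromorphicAt Λ 1

/-- The function `Λ(s) ∏_{q ∈ T₀} (1 - χ(c(q)) Nq^{1-s})`. -/
noncomputable def smoothed {𝔪 : Ideal (𝓞 K)} (c : Ideal (𝓞 K) → G) (T₀ : Finset (Places 𝔪)) (χ : Character G)
    (Λ : ℂ → ℂ) (s : ℂ) : ℂ :=
  Λ s * ∏ q ∈ T₀, (1 - value χ (c q.1.asIdeal) * ((Ideal.absNorm q.1.asIdeal : ℕ) : ℂ) ^ (1 - s))

/-- The term of the prime `v = x.1` and the exponent `k = x.2 + 1` in `S_χ(T)`. -/
noncomputable def term (𝔪 : Ideal (𝓞 K)) (c : Ideal (𝓞 K) → G) (γ T : ℝ) (χ : Character G)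
    (x : Places 𝔪 × ℕ) : ℂ :=
  value χ (c x.1.1.asIdeal) ^ (x.2 + 1) *
      Complex.exp ((γ * ((x.2 + 1) * Real.log (Ideal.absNorm x.1.1.asIdeal : ℕ) / T) : ℝ) * Complex.I) /
    (((x.2 + 1) * Real.Gamma (1 + (x.2 + 1) * Real.log (Ideal.absNorm x.1.1.asIdeal : ℕ) / T) : ℝ) : ℂ)

/-- The sum `S_χ(T)`. -/
noncomputable def charSum (𝔪 : Ideal (𝓞 K)) (c : Ideal (𝓞 K) → G) (γ T : ℝ) (χ : Character G) : ℂ :=
  ∑' x, term 𝔪 c γ T χ x

/-- The constant `Λ(γ) = ∫_0^∞ (e^{-t} - e^{iγt} / Γ(1 + t)) dt / t`. -/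
noncomputable def Lambda (γ : ℝ) : ℂ := ∫ t in Set.Ioi (0 : ℝ),
  (Complex.exp (-(t : ℂ)) - Complex.exp ((γ * t : ℝ) * Complex.I) * ((Real.Gamma (1 + t))⁻¹ : ℝ)) / t

/-- `θ_T(χ) = ∏_{q ∈ T₀} (1 - χ(c(q)) Nq) (T e^{-Λ(γ)})^r exp(S_χ(T))`. -/
noncomputable def approx {𝔪 : Ideal (𝓞 K)} (c : Ideal (𝓞 K) → G) (T₀ : Finset (Places 𝔪)) (r : ℕ)
    (γ T : ℝ) (χ : Character G) : ℂ :=
  (∏ q ∈ T₀, (1 - value χ (c q.1.asIdeal) * (Ideal.absNorm q.1.asIdeal : ℕ))) *
    (((T : ℂ) * Complex.exp (-Lambda γ)) ^ r * Complex.exp (charSum 𝔪 c γ T χ))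

/-- The coefficient of `g` in the element `∑_χ A(χ) e_χ` of the group ring. -/
noncomputable def coef (A : Character G → ℂ) (g : G) : ℂ :=
  (Fintype.card G : ℂ)⁻¹ * ∑ χ : Character G, A χ * value χ g⁻¹

variable {H : Type} [Field H] [NumberField H]

/-- The logarithm of the normalised absolute value. -/
noncomputable def logAbs (v : InfinitePlace H) (x : H) : ℝ := v.mult * Real.log (v x)

/-- The units which are trivial at all the archimedean places not conjugate to some `w_i`. -/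
def IsSpecial (ρ : G →* (H ≃+* H)) {r : ℕ} (w : Fin r → InfinitePlace H) (u : (𝓞 H)ˣ) : Prop :=
  ∀ v : InfinitePlace H, (∀ i g, v ≠ (w i).comap (ρ g : H →+* H)) → v (u : H) = 1

/-- The regulator `det (∑_g χ(g) log |g(u_j)|_{w_i})`. -/
noncomputable def regulator (ρ : G →* (H ≃+* H)) {r : ℕ} (w : Fin r → InfinitePlace H) (u : Fin r → (𝓞 H)ˣ)
    (χ : Character G) : ℂ :=
  Matrix.det (Matrix.of fun i j : Fin r => ∑ g : G, value χ g * (logAbs (w i) (ρ g (u j : H)) : ℂ))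

/-- There are finitely many `q_k ∈ ℚ[G]` and `r`-tuples `u_k` of special units with
`θ(χ) = ∑_k χ(q_k) Reg_{u_k}(χ)` for all `χ ∈ Ξ`. -/
def HasElement (ρ : G →* (H ≃+* H)) {r : ℕ} (w : Fin r → InfinitePlace H) (θ : Character G → ℂ)
    (Ξ : Set (Character G)) : Prop :=
  ∃ (m : ℕ) (q : Fin m → G → ℚ) (u : Fin m → Fin r → (𝓞 H)ˣ), (∀ k j, IsSpecial ρ w (u k j)) ∧
    ∀ χ ∈ Ξ, θ χ = ∑ k, (∑ g, (q k g : ℂ) * value χ g) * regulator ρ w (u k) χ

end defs

open Pool.Agent.X287.ST Pool.Agent.X287.CR in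
/-- **The rational Stark conjecture of order `r`, by convergent sums over primes.** -/
theorem result (K : Type) [Field K] [NumberField K] (𝔪 : Ideal (𝓞 K)) (h0 : 𝔪 ≠ ⊥) (h1 : 𝔪 ≠ ⊤)
    (R : Finset (K →+* ℝ)) (G : Type) [CommGroup G] [Fintype G] (c : Ideal (𝓞 K) → G)
    (hc : IsClassMap 𝔪 R c) (T₀ : Finset (Places 𝔪)) (r : ℕ)
    (hr : r = R.card + InfinitePlace.nrComplexPlaces K) (γ : ℝ) (hγ : Real.pi / 2 < γ) :
    -- 1. continuation, uniqueness, absolute convergence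
    (∀ χ : Character G, ∃ Λ, IsL 𝔪 c χ Λ) ∧
    (∀ (χ : Character G) (Λ Λ' : ℂ → ℂ), IsL 𝔪 c χ Λ → IsL 𝔪 c χ Λ' → ∀ s, s ≠ 1 → Λ s = Λ' s) ∧
    (∀ (χ : Character G) (T : ℝ), 0 < T → Summable fun x => ‖term 𝔪 c γ T χ x‖) ∧
    ∀ Λ : Character G → ℂ → ℂ, (∀ χ, IsL 𝔪 c χ (Λ χ)) →
    ∃ θ : Character G → ℂ,
      (∀ χ, Tendsto (fun s : ℂ => smoothed c T₀ χ (Λ χ) s / s ^ r) (𝓝[≠] 0) (𝓝 (θ χ))) ∧
      -- 2. the approximation
      (∀ χ, (fun T : ℝ => approx c T₀ r γ T χ - θ χ) =O[atTop] (fun T : ℝ => 1 / T)) ∧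
      -- 3. the criterion
      ∀ (H : Type) [Field H] [NumberField H] (ρ : G →* (H ≃+* H)) (w : Fin r → InfinitePlace H)
        (u₀ : Fin r → (𝓞 H)ˣ), (∀ j, IsSpecial ρ w (u₀ j)) →
        (HasElement ρ w θ {χ | regulator ρ w u₀ χ ≠ 0} ↔
          ∃ N : ℕ, 1 ≤ N ∧ ∀ ε > 0, ∀ T₁ : ℝ, ∃ T ≥ T₁, ∃ n : G → ℤ,
            ∀ g, ‖N * coef (fun χ => approx c T₀ r γ T χ / regulator ρ w u₀ χ) g - n g‖ < ε) ∧
        (HasElement ρ w θ {χ | regulator ρ w u₀ χ ≠ 0} ↔
          ∃ N : ℕ, 1 ≤ N ∧ ∃ n : G → ℤ, ∀ g,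
            (fun T : ℝ => N * coef (fun χ => approx c T₀ r γ T χ / regulator ρ w u₀ χ) g - n g)
              =O[atTop] (fun T : ℝ => 1 / T)) ∧
        ((∀ χ, θ χ ≠ 0 → regulator ρ w u₀ χ ≠ 0) →
          (HasElement ρ w θ Set.univ ↔ HasElement ρ w θ {χ | regulator ρ w u₀ χ ≠ 0})) := by
  classical
  have hcc : IsClassMapR 𝔪 R c := ⟨hc.mul, fun x hx0 hx1 hx2 => hc.ray x hx0 hx1 fun σ => hx2 σ⟩
  have hL : ∀ (χ : Character G) (Λ : ℂ → ℂ), IsL 𝔪 c χ Λ ↔ IsLc 𝔪 c χ Λ := fun χ Λ =>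
    ⟨fun h => ⟨h.prod, h.analytic, h.mero⟩, fun h => ⟨h.prod, h.an, h.mer⟩⟩
  refine ⟨fun χ => ?_, fun χ Λ Λ' h h' s hs => Lc_unique ((hL χ Λ).1 h) ((hL χ Λ').1 h') hs,
    fun χ T hT => ct_summable γ hT χ, fun Λ hΛ => ?_⟩
  · obtain ⟨Λ, h, -⟩ := exists_Lc h1 h0 hcc χ
    exact ⟨Λ, (hL χ Λ).2 h⟩
  choose θ' hθ1 hθ2 using fun χ => Lc_lim h1 h0 hcc ((hL χ _).1 (hΛ χ)) hγ
  rw [← hr] at hθ1 hθ2
  set δ : Character G → ℂ := fun χ => ∏ q ∈ T₀, (1 - value χ (c q.1.asIdeal) * (Ideal.absNorm q.1.asIdeal : ℕ))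
    with hδ
  have hA : ∀ χ, (fun T : ℝ => approx c T₀ r γ T χ - δ χ * θ' χ) =O[atTop] (fun T : ℝ => 1 / T) := by
    intro χ
    refine ((hθ2 χ).const_mul_left (δ χ)).congr_left fun T => ?_
    unfold approx
    have e1 : Lambda γ = Pool.Agent.W187.UR.Lam γ := rfl
    have e2 : charSum 𝔪 c γ T χ = cS 𝔪 c γ T χ := rfl
    rw [e1, e2]
    simp only [hδ]
    ring
  refine ⟨fun χ => δ χ * θ' χ, fun χ => ?_, hA, ?_⟩
  · have h3 : Tendsto (fun s : ℂ => ∏ q ∈ T₀, (1 - value χ (c q.1.asIdeal) *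
        ((Ideal.absNorm q.1.asIdeal : ℕ) : ℂ) ^ (1 - s))) (𝓝[≠] 0) (𝓝 (δ χ)) := by
      refine tendsto_finsetProd _ fun q _ => ?_
      refine tendsto_const_nhds.sub (tendsto_const_nhds.mul ?_)
      have hne : ((Ideal.absNorm q.1.asIdeal : ℕ) : ℂ) ≠ 0 := by
        have := Ideal.absNorm_eq_zero_iff.not.2 q.1.ne_bot
        exact_mod_cast this
      have h4 : ContinuousAt (fun s : ℂ => ((Ideal.absNorm q.1.asIdeal : ℕ) : ℂ) ^ (1 - s)) 0 :=
        ContinuousAt.const_cpow (by fun_prop) (Or.inl hne)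
      have h5 := h4.tendsto.mono_left (nhdsWithin_le_nhds (s := {0}ᶜ))
      simpa using h5
    refine ((h3.mul (hθ1 χ))).congr fun s => ?_
    unfold smoothed
    ring
  intro H _ _ ρ w u₀ hu₀
  have hreg : ∀ u χ, regulator ρ w u χ = regu ρ w u χ := fun _ _ => rfl
  set θ : Character G → ℂ := fun χ => δ χ * θ' χ with hθ
  set A : Character G → ℂ := fun χ => θ χ / regulator ρ w u₀ χ with hAdef
  have hrate : ∀ χ, (fun T : ℝ => approx c T₀ r γ T χ / regulator ρ w u₀ χ - A χ) =O[atTop]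
      (fun T : ℝ => 1 / T) := by
    intro χ
    refine ((hA χ).const_mul_left (regulator ρ w u₀ χ)⁻¹).congr_left fun T => ?_
    simp only [hAdef, hθ]
    ring
  have hco := fun g => cf_rate (G := G) (A := A)
    (B := fun T χ => approx c T₀ r γ T χ / regulator ρ w u₀ χ) hrate g
  have hint := int_iff (ι := G) (a := cf A)
    (b := fun T => cf (fun χ => approx c T₀ r γ T χ / regulator ρ w u₀ χ)) hco
  -- Rubin's form on the support of the regulator
  have hrub : HasElement ρ w θ {χ | regulator ρ w u₀ χ ≠ 0} ↔ ∀ g, ∃ q : ℚ, cf A g = q := by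
    rw [← cf_rat_iff]
    constructor
    · rintro ⟨m, q, u, hu, h2⟩ σ χ
      by_cases hχ : regulator ρ w u₀ χ = 0
      · have h3 : regulator ρ w u₀ (cj σ χ) = 0 := by
          by_contra h4
          have h5 := regu_ne hu₀ σ.symm h4
          rw [cj_symm] at h5
          exact h5 hχ
        simp only [hAdef]
        rw [hχ, h3, div_zero, div_zero, map_zero]
      · have h3 : regulator ρ w u₀ (cj σ χ) ≠ 0 := regu_ne hu₀ σ hχ
        have h4 : ∀ ψ, regulator ρ w u₀ ψ ≠ 0 → A ψ = ∑ k, (∑ g, (q k g : ℂ) * value ψ g) *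
            (regulator ρ w (u k) ψ / regulator ρ w u₀ ψ) := by
          intro ψ hψ
          simp only [hAdef]
          rw [h2 ψ hψ, Finset.sum_div]
          exact Finset.sum_congr rfl fun k _ => by ring
        rw [h4 χ hχ, h4 _ h3, map_sum]
        refine Finset.sum_congr rfl fun k _ => ?_
        rw [map_mul, map_sum]
        congr 1
        · refine Finset.sum_congr rfl fun g _ => ?_
          rw [map_mul, map_ratCast]
          rfl
        · exact regu_conj hu₀ (hu k) σ hχ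
    · intro h2
      have h3 := (cf_rat_iff A).1 h2
      choose q hq using h3
      refine ⟨1, fun _ => q, fun _ => u₀, fun _ => hu₀, fun χ hχ => ?_⟩
      have h4 := cf_dual A χ
      have h5 : ∑ g, (q g : ℂ) * value χ g = A χ := by
        rw [← h4]
        exact Finset.sum_congr rfl fun g _ => by rw [hq g]; rfl
      rw [Finset.univ_unique, Finset.sum_singleton, h5]
      simp only [hAdef]
      rw [div_mul_cancel₀ _ hχ]
  refine ⟨hrub.trans hint.1, hrub.trans hint.2, fun hsup => ⟨?_, fun h => ?_⟩⟩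
  · rintro ⟨m, q, u, hu, h2⟩
    exact ⟨m, q, u, hu, fun χ _ => h2 χ (Set.mem_univ _)⟩
  · obtain h3 := hrub.1 h
    choose q hq using h3
    refine ⟨1, fun _ => q, fun _ => u₀, fun _ => hu₀, fun χ _ => ?_⟩
    have h4 := cf_dual A χ
    have h5 : ∑ g, (q g : ℂ) * value χ g = A χ := by
      rw [← h4]
      exact Finset.sum_congr rfl fun g _ => by rw [hq g]; rfl
    rw [Finset.univ_unique, Finset.sum_singleton, h5]
    simp only [hAdef]
    by_cases hχ : regulator ρ w u₀ χ = 0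
    · have h6 : θ χ = 0 := by
        by_contra h7
        exact hsup χ h7 hχ
      rw [h6, hχ, mul_zero]
    · rw [div_mul_cancel₀ _ hχ]

end Pool.Agent.Results.MP_d9bae3_nt.RegulatorsOfGivenUnits
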